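import Pool.Agent.Helper17.IA.StV

/-!
# Project IA, module VCH: the chain of the vortex
-/

set_option autoImplicit false

namespace Pool.Agent.Helper15.IA

open Finset Pool.Agent.Helper93.IA Pool.Agent.Helper17.IA

private theorem bi_mono {α β : Type} [DecidableEq α] [DecidableEq β] {A : Finset (α × β)}
    {V1 V1' : Finset α} {V2 V2' : Finset β} {U1 : Finset α} {U2 : Finset β} {lo hi lo' hi' : ℝ}
    (h : Bi A V1 V2 U1 U2 lo hi) (h1 : V1' ⊆ V1) (h2 : V2' ⊆ V2) (hlo : lo' ≤ lo)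
    (hhi : hi ≤ hi') : Bi A V1' V2' U1 U2 lo' hi' :=
  ⟨fun a ha => ⟨hlo.trans (h.1 a (h1 ha)).1, (h.1 a (h1 ha)).2.trans hhi⟩,
    fun b hb => ⟨hlo.trans (h.2 b (h2 hb)).1, (h.2 b (h2 hb)).2.trans hhi⟩⟩

private theorem near_mono {α β γ : Type} [DecidableEq α] [DecidableEq β] [DecidableEq γ]
    {A : Finset (α × β)} {B : Finset (β × γ)} {C : Finset (γ × α)}
    {V1 V1' : Finset α} {V2 V2' : Finset β} {V3 V3' : Finset γ} {U1 : Finset α} {U2 : Finset β}
    {U3 : Finset γ} {lo hi lo' hi' : ℝ}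
    (h : Near A B C V1 V2 V3 U1 U2 U3 lo hi) (h1 : V1' ⊆ V1) (h2 : V2' ⊆ V2) (h3 : V3' ⊆ V3)
    (hlo : lo' ≤ lo) (hhi : hi ≤ hi') : Near A B C V1' V2' V3' U1 U2 U3 lo' hi' :=
  ⟨bi_mono h.1 h1 h2 hlo hhi, bi_mono h.2.1 h2 h3 hlo hhi, bi_mono h.2.2 h3 h1 hlo hhi⟩

private theorem est (ε : ℝ) (hε : 0 < ε) (s : ℕ) (hs : (2 / ε) ^ 3 ≤ (s : ℝ)) :
    2 * (s : ℝ) ^ ((2 : ℝ) / 3) ≤ ε * s := by
  have h0 : (0 : ℝ) ≤ 2 / ε := by positivity
  have hs0 : (0 : ℝ) < s := lt_of_lt_of_le (by positivity) hs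
  have h1 : 2 / ε ≤ (s : ℝ) ^ ((1 : ℝ) / 3) := by
    have h2 : ((2 / ε) ^ 3 : ℝ) ^ ((1 : ℝ) / 3) = 2 / ε := by
      rw [← Real.rpow_natCast, ← Real.rpow_mul h0]
      norm_num
    rw [← h2]
    exact Real.rpow_le_rpow (by positivity) hs (by norm_num)
  have h3 : (s : ℝ) = (s : ℝ) ^ ((2 : ℝ) / 3) * (s : ℝ) ^ ((1 : ℝ) / 3) := by
    rw [← Real.rpow_add hs0]
    norm_num
  have h4 : 0 ≤ (s : ℝ) ^ ((2 : ℝ) / 3) := Real.rpow_nonneg hs0.le _
  have h5 : 2 ≤ ε * (s : ℝ) ^ ((1 : ℝ) / 3) := by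
    have := mul_le_mul_of_nonneg_left h1 hε.le
    have h6 : ε * (2 / ε) = 2 := by field_simp
    linarith
  calc 2 * (s : ℝ) ^ ((2 : ℝ) / 3) ≤ (ε * (s : ℝ) ^ ((1 : ℝ) / 3)) * (s : ℝ) ^ ((2 : ℝ) / 3) :=
        mul_le_mul_of_nonneg_right h5 h4
    _ = ε * ((s : ℝ) ^ ((2 : ℝ) / 3) * (s : ℝ) ^ ((1 : ℝ) / 3)) := by ring
    _ = ε * s := by rw [← h3]

theorem hVCH : StVCH := by
  intro hVST ξ ε hξ hξ' hε
  obtain ⟨n1, hn1, hstep⟩ := hVST ξ hξ hξ'
  refine ⟨max n1 ⌈(2 / ε) ^ 3⌉₊, le_max_of_le_left hn1, ?_⟩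
  intro n0 hn0
  have hn1' : n1 ≤ n0 := (le_max_left _ _).trans hn0
  have hn0e : ⌈(2 / ε) ^ 3⌉₊ ≤ n0 := (le_max_right _ _).trans hn0
  have hest : ∀ s : ℕ, n0 ≤ s → 2 * (s : ℝ) ^ ((2 : ℝ) / 3) ≤ ε * s := by
    intro s hs
    apply est ε hε s
    exact (Nat.le_ceil _).trans (by exact_mod_cast hn0e.trans hs)
  refine ⟨⌈(n0 : ℝ) / ξ⌉₊, ?_⟩
  intro n s κ A B C
  induction s using Nat.strong_induction_on with
  | _ s ih =>
    intro S hs hS hN
    rcases Nat.lt_or_ge ⌊ξ * s⌋₊ n0 with hlt | hge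
    · -- the chain stops
      have h1 : ξ * s < n0 := (Nat.floor_lt (by positivity)).1 hlt
      have h2 : (s : ℝ) ≤ (n0 : ℝ) / ξ := by
        rw [le_div_iff₀ hξ]
        linarith
      have h3 : s ≤ ⌈(n0 : ℝ) / ξ⌉₊ := by
        have := h2.trans (Nat.le_ceil _)
        exact_mod_cast this
      have hnear : Near A B C (S 0) (S 1) (S 2) (S 0) (S 1) (S 2)
          ((κ - ε) * (S 0).card) ((κ + ε) * (S 0).card) := by
        have h4 := hest s hs
        rw [hS 0]
        exact near_mono hN (Finset.Subset.refl _) (Finset.Subset.refl _) (Finset.Subset.refl _)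
          (by linarith) (by linarith)
      refine ⟨0, fun _ => S, ⟨fun j => rfl, fun i hi => absurd hi (Nat.not_lt_zero i),
        fun i hi => absurd hi (Nat.not_lt_zero i), fun i _ j => ?_, fun i _ => hnear,
        fun i hi => absurd hi (Nat.not_lt_zero i)⟩, fun j => ?_⟩
      · rw [hS j]
        exact hs
      · rw [hS j]
        exact h3
    · -- one more level
      have hs1 : 1 ≤ s := hn1.trans (hn1'.trans hs)
      have hs0 : (0 : ℝ) < s := by exact_mod_cast hs1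
      have hm : ⌊ξ * s⌋₊ < s := by
        rw [Nat.floor_lt (by positivity)]
        nlinarith
      obtain ⟨U, hUS, hU, hUN⟩ := hstep n s κ A B C S (hn1'.trans hs) hS hN
      have hUU : NearE A B C U U (κ * (⌊ξ * s⌋₊ : ℕ))
          (2 * ((⌊ξ * s⌋₊ : ℕ) : ℝ) ^ ((2 : ℝ) / 3)) :=
        near_mono hUN (hUS 0) (hUS 1) (hUS 2) le_rfl le_rfl
      obtain ⟨ℓ, V, hch, hM⟩ := ih ⌊ξ * s⌋₊ hm U hge hU hUU
      have hV0 : V 0 = U := funext hch.zero
      have hnear : Near A B C (S 0) (S 1) (S 2) (S 0) (S 1) (S 2)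
          ((κ - ε) * (S 0).card) ((κ + ε) * (S 0).card) := by
        have h4 := hest s hs
        rw [hS 0]
        exact near_mono hN (Finset.Subset.refl _) (Finset.Subset.refl _) (Finset.Subset.refl _)
          (by linarith) (by linarith)
      have hnext : Near A B C (S 0) (S 1) (S 2) (V 0 0) (V 0 1) (V 0 2)
          ((κ - ε) * (V 0 0).card) ((κ + ε) * (V 0 0).card) := by
        have h4 := hest ⌊ξ * s⌋₊ hge
        rw [hV0, hU 0]
        exact near_mono hUN (Finset.Subset.refl _) (Finset.Subset.refl _) (Finset.Subset.refl _)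
          (by linarith) (by linarith)
      refine ⟨ℓ + 1, fun i => Nat.casesOn i S V, ⟨fun j => rfl, fun i hi j => ?_, fun i hi j => ?_,
        fun i hi j => ?_, fun i hi => ?_, fun i hi => ?_⟩, fun j => hM j⟩
      · cases i with
        | zero =>
          show V 0 j ⊆ S j
          rw [hV0]
          exact hUS j
        | succ i => exact hch.sub i (by omega) j
      · cases i with
        | zero =>
          show (V 0 j).card = ⌊ξ * (S 0).card⌋₊
          rw [hV0, hU j, hS 0]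
        | succ i => exact hch.card i (by omega) j
      · cases i with
        | zero =>
          show n0 ≤ (S j).card
          rw [hS j]
          exact hs
        | succ i => exact hch.big i (by omega) j
      · cases i with
        | zero => exact hnear
        | succ i => exact hch.near i (by omega)
      · cases i with
        | zero => exact hnext
        | succ i => exact hch.next i (by omega)

end Pool.Agent.Helper15.IA
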